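import Pool.Agent.Y396.WMain

set_option autoImplicit false

/-!
Full affirmative answer to Q1 of MP_b06295_co.

`C` is a class of finite graphs (given on the vertex sets `Fin n`) which is closed under
subcontraction (`IsSubcontraction`, in particular under isomorphism) and misses some finite graph.
Then there is `N` such that every finite group which is isomorphic to `Aut X` for some `X` in `C`
and whose order is divisible by no prime below `N` belongs to the class `InW` generated by the
finite cyclic groups under direct products and permutational wreath products.
The two definitions are in `Pool/Agent/Y396/WClass.lean`.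
-/

namespace Pool.Agent.Results.MP_b06295_co.LargePrimes

open Pool.Agent.Y396

theorem result (C : ∀ n : ℕ, SimpleGraph (Fin n) → Prop)
    (hC : ∀ (m n : ℕ) (Y : SimpleGraph (Fin m)) (X : SimpleGraph (Fin n)),
      C n X → IsSubcontraction Y X → C m Y)
    (hne : ∃ (n : ℕ) (X : SimpleGraph (Fin n)), ¬ C n X) :
    ∃ N : ℕ, ∀ (G : Type) [Group G] [Finite G] (n : ℕ) (X : SimpleGraph (Fin n)), C n X →
      Nonempty (G ≃* (X ≃g X)) → (∀ p : ℕ, p.Prime → p ∣ Nat.card G → N ≤ p) → InW G :=
  Pool.Agent.Y396.main C hC hne

end Pool.Agent.Results.MP_b06295_co.LargePrimes
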